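import Mathlib

namespace Pool.Agent.Results.MP_55b43c_co.Cex

open SimpleGraph

variable {V : Type}

/-- A move inside the closed neighbourhood. -/
def Mv (G : SimpleGraph V) (a b : V) : Prop := b = a ∨ G.Adj a b

/-- The cops moved from `c` to `c'` and the robot moves from `r` to `r'`: it is captured if it ends
on a cop, or traverses an edge that a cop has just traversed. -/
def Caught {k : ℕ} (c c' : Fin k → V) (r r' : V) : Prop :=
  (∃ i, c' i = r') ∨ (r ≠ r' ∧ ∃ i, s(c i, c' i) = s(r, r'))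

/-- `Win G c r`: cops at `c` (to move) can force the capture of the robot at `r`. -/
inductive Win (G : SimpleGraph V) {k : ℕ} : (Fin k → V) → V → Prop
  | step (c c' : Fin k → V) (r : V) (hc : ∀ i, Mv G (c i) (c' i))
      (hr : ∀ r', Mv G r r' → ¬ Caught c c' r r' → Win G c' r') : Win G c r

/-- The cheating robot cop number. -/
noncomputable def ccr (G : SimpleGraph V) : ℕ :=
  sInf {k | ∃ c : Fin k → V, ∀ r, Win G c r}

def mk (A : ℕ) : SimpleGraph (Fin 7) :=
  fromRel fun a b => A.testBit (7 * a.val + b.val) = true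

instance (A : ℕ) : DecidableRel (mk A).Adj := fun a b =>
  decidable_of_iff (a ≠ b ∧ (A.testBit (7 * a.val + b.val) = true ∨
    A.testBit (7 * b.val + a.val) = true)) (by simp [mk, fromRel_adj])

instance (A : ℕ) (a b : Fin 7) : Decidable (Mv (mk A) a b) := by unfold Mv; infer_instance

def C2 (x y x' y' r r' : Fin 7) : Prop :=
  (x' = r' ∨ y' = r') ∨ (r ≠ r' ∧ (((x = r ∧ x' = r') ∨ (x = r' ∧ x' = r)) ∨
    ((y = r ∧ y' = r') ∨ (y = r' ∧ y' = r))))

instance (x y x' y' r r' : Fin 7) : Decidable (C2 x y x' y' r r') := by unfold C2; infer_instance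

lemma caught_iff (c c' : Fin 2 → Fin 7) (r r' : Fin 7) :
    Caught c c' r r' ↔ C2 (c 0) (c 1) (c' 0) (c' 1) r r' := by
  simp [Caught, C2, Fin.exists_fin_two]

def aG : ℕ := 174205823629400
def aH : ℕ := 31269312018520
def tb : ℕ := 34328401235859097047370086491054656052979691446055792244890880425461673597905520299213354927446654209860144424550849695945346774466140559162559876552030724307409050395967379945938694272682962933320476676187462907065512634722552662342457293412583320847849419782062967532288309523632443052962791196214802008955552602733660650799656287515297105567465892564401871482338531991370342728027446879179999413150683593270883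
def sf : ℕ := 17909208396322098411964837340667536056245480170952921727535326848619529641815592236082510715987053902847
def rk (x y r : Fin 7) : ℕ := (tb >>> (4 * (49 * x.val + 7 * y.val + r.val))) % 16
def S (x y r : Fin 7) : Prop := sf.testBit (49 * x.val + 7 * y.val + r.val) = true

instance (x y r : Fin 7) : Decidable (S x y r) := by unfold S; infer_instance

lemma chkG : ∀ x y r : Fin 7, ∃ x', Mv (mk aG) x x' ∧ ∃ y', Mv (mk aG) y y' ∧
    ∀ r', Mv (mk aG) r r' → ¬ C2 x y x' y' r r' → rk x' y' r' < rk x y r := by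
  decide +kernel

lemma chkH : ∀ x y r : Fin 7, S x y r → ∀ x', Mv (mk aH) x x' → ∀ y', Mv (mk aH) y y' →
    ∃ r', Mv (mk aH) r r' ∧ ¬ C2 x y x' y' r r' ∧ S x' y' r' := by
  decide +kernel

lemma chkH0 : ∀ x y : Fin 7, ∃ r, S x y r := by decide +kernel

lemma winG (n : ℕ) : ∀ (c : Fin 2 → Fin 7) (r : Fin 7), rk (c 0) (c 1) r < n → Win (mk aG) c r := by
  induction n with
  | zero => intro c r h; omega
  | succ n ih =>
    intro c r h
    obtain ⟨x', hx, y', hy, H⟩ := chkG (c 0) (c 1) r
    refine Win.step c ![x', y'] r (fun i => by fin_cases i <;> simpa) fun r' h1 h2 => ih _ _ ?_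
    have := H r' h1 (by rw [caught_iff] at h2; simpa using h2)
    simp only [Matrix.cons_val_zero, Matrix.cons_val_one]
    omega

lemma loseH (c : Fin 2 → Fin 7) (r : Fin 7) (h : Win (mk aH) c r) : ¬ S (c 0) (c 1) r := by
  induction h with
  | step c c' r hc _ ih =>
    intro hs
    obtain ⟨r', h1, h2, h3⟩ := chkH _ _ _ hs _ (hc 0) _ (hc 1)
    exact ih r' h1 (by rwa [caught_iff]) h3

lemma win_comp {G : SimpleGraph V} {k m : ℕ} (f : Fin m → Fin k) (hf : Function.Surjective f)
    (c : Fin k → V) (r : V) (h : Win G c r) : Win G (c ∘ f) r := by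
  induction h with
  | step c c' r hc _ ih =>
    refine Win.step _ (c' ∘ f) r (fun i => hc _) fun r' h1 h2 => ih r' h1 fun h3 => h2 ?_
    rcases h3 with ⟨i, hi⟩ | ⟨h4, i, hi⟩
    · obtain ⟨j, rfl⟩ := hf i; exact Or.inl ⟨j, hi⟩
    · obtain ⟨j, rfl⟩ := hf i; exact Or.inr ⟨h4, j, hi⟩

lemma no_zero {G : SimpleGraph V} (c : Fin 0 → V) (r : V) (h : Win G c r) : False := by
  induction h with
  | step c c' r _ _ ih => exact ih r (Or.inl rfl) (by simp [Caught])

lemma conn (A : ℕ) (h : ∀ v : Fin 7, v = 0 ∨ (mk A).Adj 0 v ∨ (∃ u, (mk A).Adj 0 u ∧ (mk A).Adj u v)) :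
    (mk A).Connected := by
  have key : ∀ v, (mk A).Reachable 0 v := fun v => by
    rcases h v with rfl | h | ⟨u, h1, h2⟩
    · rfl
    · exact h.reachable
    · exact h1.reachable.trans h2.reachable
  exact ⟨fun a b => (key a).symm.trans (key b)⟩

theorem result : ∃ G H : SimpleGraph (Fin 7), G.Connected ∧ H.Connected ∧ H ≤ G ∧
    ccr G < ccr H := by
  refine ⟨mk aG, mk aH, conn _ (by decide +kernel), conn _ (by decide +kernel), ?_, ?_⟩
  · have : ∀ a b, (mk aH).Adj a b → (mk aG).Adj a b := by decide +kernel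
    exact fun a b => this a b
  have h1 : ccr (mk aG) ≤ 2 := Nat.sInf_le ⟨![0, 0], fun r => winG _ _ _ (Nat.lt_succ_self _)⟩
  have h2 : ccr (mk aH) ∈ {k | ∃ c : Fin k → Fin 7, ∀ r, Win (mk aH) c r} :=
    Nat.sInf_mem ⟨7, id, fun r => Win.step _ id r (fun _ => Or.inl rfl)
      fun r' _ h => (h (Or.inl ⟨r', rfl⟩)).elim⟩
  have h3 : ¬ ∃ c : Fin 2 → Fin 7, ∀ r, Win (mk aH) c r := by
    rintro ⟨c, hc⟩
    obtain ⟨r, hr⟩ := chkH0 (c 0) (c 1)
    exact loseH c r (hc r) hr
  by_contra hlt
  have h4 : ccr (mk aH) = 0 ∨ ccr (mk aH) = 1 ∨ ccr (mk aH) = 2 := by omega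
  rcases h4 with h | h | h <;> rw [h] at h2
  · obtain ⟨c, hc⟩ := h2; exact no_zero c 0 (hc 0)
  · obtain ⟨c, hc⟩ := h2
    exact h3 ⟨c ∘ fun _ => 0, fun r => win_comp _ (fun i => ⟨0, Subsingleton.elim _ _⟩) c r (hc r)⟩
  · exact h3 h2

end Pool.Agent.Results.MP_55b43c_co.Cex
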